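import Mathlib
import Pool.Agent.U322.MO.Ext

/-!
# MP_9de1de_an, Q2: continuous functions on the open disc

Q1 has a positive answer: if `f` is continuous on the *closed* unit disc and the integrals of `f dζ`
over the circles with the centres `z` and the radii `α (1 - |z|)` vanish, then `f` is analytic.

Here the negated form of Q2 is proved, for every `α < 1`: there is a function `f` on the *open*
unit disc, even infinitely differentiable and depending on `|z|` only, all of whose integrals over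
these circles vanish and which is not analytic; it vanishes near the origin but not identically.

Proof. For a radial function `F (|ζ| ^ 2)` the condition at the circle with the outermost point
`√t` is `∫ F (t - h (1 - cos φ)) cos φ dφ = 0`. A profile supported in `(0, α ^ 2)` satisfies it for
`t` close to `α ^ 2`. Given a smooth solution up to `t ≤ a`, a correction `H` supported in `u ≥ a`
is sought as the Abel transform `H u = ∫ q (u - σ ^ 2) dσ`; in polar coordinates the condition
becomes the Volterra equation of the first kind `∫ E ((t - τ) / (2 h)) q τ dτ = g t` with a smooth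
right side and the kernel `E κ = ∫ (1 - 2 κ cos² θ) / √(1 - κ cos² θ) dθ`, which is smooth for
`κ < 1`, and `E 0 = 2 π`. So the solution extends, by steps, to all `t < 1`.
-/

open MeasureTheory Set Filter Topology Metric
open scoped ContDiff Real

namespace Pool.Agent.Results.MP_9de1de_an.OpenDisc

open Pool.Agent.U322.MO

/-- the circle integral of a radial function -/
lemma circle_eq {F : ℝ → ℝ} (z : ℂ) (R : ℝ)
    (hF : ContinuousOn F (Icc ((‖z‖ - R) ^ 2) ((‖z‖ + R) ^ 2))) (hR : 0 ≤ R) :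
    circleIntegral (fun ζ => (F (‖ζ‖ ^ 2) : ℂ)) z R =
      Complex.I * R * Complex.exp (Complex.arg z * Complex.I) *
        (II F ((‖z‖ + R) ^ 2) (2 * ‖z‖ * R) : ℂ) := by
  obtain ⟨ψ, hψ⟩ : ∃ ψ, ψ = Complex.arg z := ⟨_, rfl⟩
  obtain ⟨x, hx⟩ : ∃ x, x = ‖z‖ := ⟨_, rfl⟩
  have hx0 : 0 ≤ x := by rw [hx]; exact norm_nonneg _
  have hz : z = x * Complex.exp (ψ * Complex.I) := by
    rw [hx, hψ, Complex.norm_mul_exp_arg_mul_I]
  rw [← hx] at hF
  rw [← hx, ← hψ]
  have hnorm : ∀ θ : ℝ, ‖circleMap z R θ‖ ^ 2 =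
      (x + R) ^ 2 - 2 * x * R * (1 - Real.cos (θ - ψ)) := by
    intro θ
    have h1 : circleMap z R θ = Complex.exp (ψ * Complex.I) *
        (x + R * Complex.exp ((θ - ψ : ℝ) * Complex.I)) := by
      unfold circleMap
      rw [hz]
      have h2 : Complex.exp (θ * Complex.I) = Complex.exp (ψ * Complex.I) *
          Complex.exp ((θ - ψ : ℝ) * Complex.I) := by
        rw [← Complex.exp_add]
        congr 1
        push_cast
        ring
      rw [h2]
      ring
    rw [h1, norm_mul, Complex.norm_exp_ofReal_mul_I, one_mul, ← Complex.normSq_eq_norm_sq,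
      Complex.normSq_apply]
    have h3 : ((x : ℂ) + R * Complex.exp ((θ - ψ : ℝ) * Complex.I)).re =
        x + R * Real.cos (θ - ψ) := by
      rw [Complex.add_re, Complex.ofReal_re, Complex.re_ofReal_mul, Complex.exp_ofReal_mul_I_re]
    have h4 : ((x : ℂ) + R * Complex.exp ((θ - ψ : ℝ) * Complex.I)).im =
        R * Real.sin (θ - ψ) := by
      rw [Complex.add_im, Complex.ofReal_im, Complex.im_ofReal_mul, Complex.exp_ofReal_mul_I_im,
        zero_add]
    rw [h3, h4]
    have h5 := Real.sin_sq_add_cos_sq (θ - ψ)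
    have h6 : Real.sin (θ - ψ) ^ 2 = 1 - Real.cos (θ - ψ) ^ 2 := by linarith
    calc (x + R * Real.cos (θ - ψ)) * (x + R * Real.cos (θ - ψ)) +
        R * Real.sin (θ - ψ) * (R * Real.sin (θ - ψ)) =
        (x + R * Real.cos (θ - ψ)) ^ 2 + R ^ 2 * Real.sin (θ - ψ) ^ 2 := by ring
      _ = _ := by rw [h6]; ring
  -- the integrand
  obtain ⟨k, hk⟩ : ∃ k : ℝ → ℝ, k = fun φ => F ((x + R) ^ 2 - 2 * x * R * (1 - Real.cos φ)) :=
    ⟨_, rfl⟩
  have hkc : Continuous k := by
    rw [hk]
    refine hF.comp_continuous (by fun_prop) fun φ => ?_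
    have h1 := Real.neg_one_le_cos φ
    have h2 := Real.cos_le_one φ
    have h3 : 0 ≤ x * R := mul_nonneg hx0 hR
    constructor <;> nlinarith
  have hper : Function.Periodic (fun θ : ℝ => Complex.exp (θ * Complex.I) * (k (θ - ψ) : ℂ))
      (2 * π) := by
    intro θ
    simp only
    have h1 : ((θ + 2 * π : ℝ) : ℂ) * Complex.I = θ * Complex.I + 2 * π * Complex.I := by
      push_cast; ring
    have h2 : k (θ + 2 * π - ψ) = k (θ - ψ) := by
      rw [hk]
      simp only
      rw [show θ + 2 * π - ψ = (θ - ψ) + 2 * π by ring, Real.cos_add_two_pi]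
    rw [h1, Complex.exp_add, Complex.exp_two_pi_mul_I, mul_one, h2]
  have e1 : circleIntegral (fun ζ => (F (‖ζ‖ ^ 2) : ℂ)) z R = Complex.I * R *
      ∫ θ in (0 : ℝ)..2 * π, Complex.exp (θ * Complex.I) * (k (θ - ψ) : ℂ) := by
    unfold circleIntegral
    rw [← intervalIntegral.integral_const_mul]
    refine intervalIntegral.integral_congr fun θ _ => ?_
    simp only [deriv_circleMap, smul_eq_mul, circleMap_zero, hnorm θ, hk]
    ring
  have e2 : ∫ θ in (0 : ℝ)..2 * π, Complex.exp (θ * Complex.I) * (k (θ - ψ) : ℂ) =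
      ∫ φ in (-π)..π, Complex.exp ((φ + ψ : ℝ) * Complex.I) * (k φ : ℂ) := by
    have h1 := hper.intervalIntegral_add_eq 0 (-π + ψ)
    rw [zero_add] at h1
    rw [h1]
    have h2 := intervalIntegral.integral_comp_add_right (a := -π) (b := π)
      (fun θ : ℝ => Complex.exp (θ * Complex.I) * (k (θ - ψ) : ℂ)) ψ
    simp only [add_sub_cancel_right] at h2
    rw [h2]
    congr 1
    ring
  have e3 : ∫ φ in (-π)..π, Complex.exp ((φ + ψ : ℝ) * Complex.I) * (k φ : ℂ) =
      Complex.exp (ψ * Complex.I) * ∫ φ in (-π)..π, Complex.exp (φ * Complex.I) * (k φ : ℂ) := by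
    rw [← intervalIntegral.integral_const_mul]
    refine intervalIntegral.integral_congr fun φ _ => ?_
    rw [show ((φ + ψ : ℝ) : ℂ) * Complex.I = ψ * Complex.I + φ * Complex.I by push_cast; ring,
      Complex.exp_add]
    ring
  have e4 : ∫ φ in (-π)..π, Complex.exp (φ * Complex.I) * (k φ : ℂ) =
      ((∫ φ in (-π)..π, k φ * Real.cos φ : ℝ) : ℂ) +
      ((∫ φ in (-π)..π, k φ * Real.sin φ : ℝ) : ℂ) * Complex.I := by
    rw [← intervalIntegral.integral_ofReal, ← intervalIntegral.integral_ofReal,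
      ← intervalIntegral.integral_mul_const, ← intervalIntegral.integral_add]
    · refine intervalIntegral.integral_congr fun φ _ => ?_
      rw [Complex.exp_mul_I]
      push_cast
      ring
    · exact (Complex.continuous_ofReal.comp (hkc.mul Real.continuous_cos)).intervalIntegrable _ _
    · exact ((Complex.continuous_ofReal.comp (hkc.mul Real.continuous_sin)).mul
        continuous_const).intervalIntegrable _ _
  have e5 : ∫ φ in (-π)..π, k φ * Real.sin φ = 0 := by
    have h1 := intervalIntegral.integral_comp_neg (a := -π) (b := π) (fun φ => k φ * Real.sin φ)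
    rw [neg_neg] at h1
    have h2 : ∫ φ in (-π)..π, k (-φ) * Real.sin (-φ) = -∫ φ in (-π)..π, k φ * Real.sin φ := by
      rw [← intervalIntegral.integral_neg]
      refine intervalIntegral.integral_congr fun φ _ => ?_
      simp only [hk, Real.cos_neg, Real.sin_neg]
      ring
    rw [h2] at h1
    linarith
  have e6 : ∫ φ in (-π)..π, k φ * Real.cos φ = II F ((x + R) ^ 2) (2 * x * R) := by
    rw [hk]; rfl
  rw [e1, e2, e3, e4, e5, e6]
  push_cast
  ring

/-- For every `0 < α < 1` there is an infinitely differentiable radial function on the open unit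
disc whose integrals over all circles with the centre `z` and the radius `α (1 - |z|)` vanish, which
is not analytic: it vanishes for `|z| ≤ α / 4`, and it is equal to `1` at `α / 2`. -/
theorem result (α : ℝ) (h0 : 0 < α) (h1 : α < 1) : ∃ f : ℂ → ℂ,
    ContinuousOn f (ball (0 : ℂ) 1) ∧
    ContDiffOn ℝ ∞ f (ball (0 : ℂ) 1) ∧
    (∀ z w : ℂ, ‖z‖ = ‖w‖ → f z = f w) ∧
    (∀ z : ℂ, ‖z‖ ≤ α / 4 → f z = 0) ∧ f (α / 2) = 1 ∧
    (∀ z : ℂ, ‖z‖ < 1 → circleIntegral f z (α * (1 - ‖z‖)) = 0) ∧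
    ¬ AnalyticOn ℂ f (ball (0 : ℂ) 1) := by
  obtain ⟨F, hF, hI, hz, hone⟩ := exists_profile h0 h1
  have hFc : ContinuousOn F (Iio 1) := fun u hu => (hF u hu).continuousAt.continuousWithinAt
  have hzero : ∀ z : ℂ, ‖z‖ ≤ α / 4 → (F (‖z‖ ^ 2) : ℂ) = 0 := by
    intro z h2
    rw [hz]
    · simp
    · have h3 : ‖z‖ ^ 2 ≤ (α / 4) ^ 2 := pow_le_pow_left₀ (norm_nonneg _) h2 2
      nlinarith
  have hval : (F (‖((α : ℂ) / 2)‖ ^ 2) : ℂ) = 1 := by
    have h2 : ‖((α : ℂ) / 2)‖ ^ 2 = α ^ 2 / 4 := by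
      rw [norm_div, Complex.norm_real, Real.norm_of_nonneg h0.le]
      simp
      ring
    rw [h2, hone]
    simp
  have hsm : ContDiffOn ℝ ∞ (fun ζ : ℂ => (F (‖ζ‖ ^ 2) : ℂ)) (ball (0 : ℂ) 1) := by
    intro ζ hζ
    have h2 : ‖ζ‖ ^ 2 < 1 := by
      have h3 : ‖ζ‖ < 1 := by simpa using hζ
      nlinarith [norm_nonneg ζ]
    have h3 : ContDiffAt ℝ ∞ (fun ζ : ℂ => ‖ζ‖ ^ 2) ζ := (contDiff_norm_sq ℝ).contDiffAt
    have h4 : ContDiffAt ℝ ∞ (fun ζ : ℂ => F (‖ζ‖ ^ 2)) ζ :=
      ContDiffAt.comp ζ (hF _ h2) h3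
    exact (Complex.ofRealCLM.contDiff.contDiffAt.comp ζ h4).contDiffWithinAt
  refine ⟨fun ζ => (F (‖ζ‖ ^ 2) : ℂ), hsm.continuousOn, hsm, fun z w hzw => by simp only [hzw], hzero,
    hval, fun z hz1 => ?_, fun han => ?_⟩
  · have hx0 : 0 ≤ ‖z‖ := norm_nonneg z
    obtain ⟨R, hR⟩ : ∃ R, R = α * (1 - ‖z‖) := ⟨_, rfl⟩
    have hR0 : 0 < R := by rw [hR]; exact mul_pos h0 (by linarith)
    have hxR : ‖z‖ + R < 1 := by rw [hR]; nlinarith
    have hlt : (‖z‖ + R) ^ 2 < 1 := by nlinarith
    rw [← hR, circle_eq z R (hFc.mono fun u hu => lt_of_le_of_lt hu.2 hlt) hR0.le]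
    rcases eq_or_lt_of_le hx0 with h2 | h2
    · have h3 : II F ((‖z‖ + R) ^ 2) (2 * ‖z‖ * R) = 0 := by
        rw [← h2]
        unfold II
        simp
      rw [h3]
      simp
    · have h3 : α < ‖z‖ + R := by rw [hR]; nlinarith
      have h4 : hc α ((‖z‖ + R) ^ 2) = 2 * ‖z‖ * R := by
        have h5 : Xc α ((‖z‖ + R) ^ 2) = ‖z‖ := by
          unfold Xc
          rw [Real.sqrt_sq (by linarith), hR]
          have : (1 - α) ≠ 0 := by linarith
          field_simp
          ring
        unfold hc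
        rw [h5, hR]
      have h5 := hI ((‖z‖ + R) ^ 2) (by nlinarith) hlt
      rw [h4] at h5
      rw [h5]
      simp
  · have h2 : AnalyticOnNhd ℂ (fun ζ : ℂ => (F (‖ζ‖ ^ 2) : ℂ)) (ball (0 : ℂ) 1) :=
      isOpen_ball.analyticOn_iff_analyticOnNhd.1 han
    have h3 : (fun ζ : ℂ => (F (‖ζ‖ ^ 2) : ℂ)) =ᶠ[𝓝 (0 : ℂ)] 0 := by
      filter_upwards [ball_mem_nhds (0 : ℂ) (by positivity : 0 < α / 4)] with ζ hζ
      exact hzero ζ (le_of_lt (by simpa using hζ))
    have h4 := h2.eqOn_zero_of_preconnected_of_eventuallyEq_zero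
      (convex_ball (0 : ℂ) 1).isPreconnected (mem_ball_self one_pos) h3
    have h5 : ((α : ℂ) / 2) ∈ ball (0 : ℂ) 1 := by
      rw [mem_ball_zero_iff, norm_div, Complex.norm_real, Real.norm_of_nonneg h0.le]
      simp
      linarith
    have h6 := h4 h5
    simp only [Pi.zero_apply] at h6
    rw [hval] at h6
    exact one_ne_zero h6

end Pool.Agent.Results.MP_9de1de_an.OpenDisc
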